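import Pool.Agent.MX.I.GG1
import Pool.Agent.MD.I.GGr

/-!
# MX/I-GGr: the axiom `GG_rel` of `IsLocT`
-/

namespace Pool.Agent.MX

open NumberField IsDedekindDomain Pool.Agent.HWR Pool.Agent.QD Pool.Agent.QD.In Pool.Agent.LD
  Pool.Agent.MD

variable {K : Type} [Field K] [NumberField K] {T : Finset ℕ} (D : LocData T) {a : ℕ → ℝ}

/-- the element with the local classes given by `f` -/
private noncomputable def grZ {V : Finset (HeightOneSpectrum (𝓞 K))} (E P : {v // v ∈ V} → Kˣ)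
    (y : Kˣ) (f : {v // v ∈ V} → LC) : Kˣ := y * ∏ j, rp (E j) (P j) (f j)

open Classical in
private theorem gr_div {V : Finset (HeightOneSpectrum (𝓞 K))} (E P : {v // v ∈ V} → Kˣ) (y : Kˣ)
    (f g : {v // v ∈ V} → LC) (i : {v // v ∈ V}) (hfg : ∀ j, j ≠ i → f j = g j) :
    grZ E P y f / grZ E P y g = rp (E i) (P i) (f i) / rp (E i) (P i) (g i) := by
  unfold grZ
  rw [← Finset.mul_prod_erase Finset.univ (fun j => rp (E j) (P j) (f j)) (Finset.mem_univ i),
    ← Finset.mul_prod_erase Finset.univ (fun j => rp (E j) (P j) (g j)) (Finset.mem_univ i)]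
  have h1 : ∏ j ∈ Finset.univ.erase i, rp (E j) (P j) (f j) =
      ∏ j ∈ Finset.univ.erase i, rp (E j) (P j) (g j) := by
    apply Finset.prod_congr rfl
    intro j hj
    rw [hfg j (Finset.mem_erase.1 hj).1]
  rw [h1, mul_div_mul_left_eq_div, mul_div_mul_right_eq_div]

private theorem gr_rp_mem {H : Subgroup Kˣ} {e p : Kˣ} (he : e ∈ H) (hp : p ∈ H) (k : LC) :
    rp e p k ∈ H := by
  unfold rp
  apply H.mul_mem
  · split_ifs
    · exact he
    · exact H.one_mem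
  · split_ifs
    · exact hp
    · exact H.one_mem

private theorem gr_mem {S' V S'' : Finset (HeightOneSpectrum (𝓞 K))} {E P : {v // v ∈ V} → Kˣ}
    (hE : IsEP S' V E P) (i : {v // v ∈ V})
    (hS : ∀ v ∈ S'', v ∈ S' ∨ ∃ h : v ∈ V, (⟨v, h⟩ : {v // v ∈ V}) ≠ i) (k : LC) :
    rp (E i) (P i) k ∈ Pool.Agent.QD.HSub S'' := by
  apply gr_rp_mem
  · refine ⟨fun v hv => ?_, (hE.E_S i).2⟩
    rcases hS v hv with h | ⟨h, hne⟩
    · exact (hE.E_S i).1 v h
    · exact hE.E_V i ⟨v, h⟩ hne.symm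
  · refine ⟨fun v hv => ?_, (hE.P_S i).2⟩
    rcases hS v hv with h | ⟨h, hne⟩
    · exact (hE.P_S i).1 v h
    · exact hE.P_V i ⟨v, h⟩ hne.symm

open Classical in
private theorem gr_step {T1 : Finset ℕ} {S' V : Finset (HeightOneSpectrum (𝓞 K))}
    (hS' : Nic T1 S') (hST' : ∀ v, ¬ Away K T v → v ∈ S')
    (hT : ∀ p : ℕ, p.Prime → p < 101 → p ∈ T)
    (ha : ∀ q : ℕ, |a q| ≤ 2 * Real.sqrt q) (ha2 : SqRel K T a) (hd : ∀ v ∈ V, v ∉ S')
    {E P : {v // v ∈ V} → Kˣ} (hE : IsEP S' V E P) {y : Kˣ} (hy : ∀ v ∈ V, LSq v y)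
    (f g : {v // v ∈ V} → LC) (i : {v // v ∈ V}) (hf : f i ≠ (true, true))
    (hg : g i = (false, true)) (hfg : ∀ j, j ≠ i → f j = g j) {s : ℂ} (hs : s.re < 1 / 2) :
    GGX (V ∪ S') D a (grZ E P y f) s * gd (nrm i.1) (a (nrm i.1)) (f i) s =
      GGX (V ∪ S') D a (grZ E P y g) s * gn (nrm i.1) (a (nrm i.1)) (f i) s := by
  obtain ⟨S0, hO, hG, hsub⟩ := hS'.ex
  have hmem : i.1 ∈ V ∪ S' := Finset.mem_union_left _ i.2
  have hne : ∀ v ∈ S', v ∈ (V ∪ S').erase i.1 := by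
    intro v hv
    refine Finset.mem_erase.2 ⟨?_, Finset.mem_union_right _ hv⟩
    rintro rfl
    exact hd _ i.2 hv
  have h12 : grZ E P y f / grZ E P y g ∈ Pool.Agent.QD.HSub ((V ∪ S').erase i.1) := by
    rw [gr_div E P y f g i hfg]
    have hS : ∀ v ∈ (V ∪ S').erase i.1, v ∈ S' ∨ ∃ h : v ∈ V, (⟨v, h⟩ : {v // v ∈ V}) ≠ i := by
      intro v hv
      obtain ⟨h1, h2⟩ := Finset.mem_erase.1 hv
      rcases Finset.mem_union.1 h2 with h3 | h3
      · exact Or.inr ⟨h3, fun h => h1 (congrArg Subtype.val h)⟩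
      · exact Or.inl h3
    exact Subgroup.div_mem _ (gr_mem hE i hS _) (gr_mem hE i hS _)
  obtain ⟨l1, l2, l3⟩ := loc_cl hE hy f i
  have h3 : Odd (ordK i.1 (grZ E P y g)) := (loc_cl hE hy g i).2.2 (by rw [hg])
  have hS2 : ∀ v : HeightOneSpectrum (𝓞 K), (2 : 𝓞 K) ∈ v.asIdeal → v ∈ (V ∪ S').erase i.1 :=
    fun v hv => hne v (hsub (hG.1 v hv))
  have hST2 : ∀ v, ¬ Away K T v → v ∈ (V ∪ S').erase i.1 := fun v hv => hne v (hST' v hv)
  rcases hfi : f i with ⟨b1, b2⟩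
  cases b1 <;> cases b2
  · have h1 : uK i.1 (grZ E P y f) = 1 := uK_of_LSq (l1 hfi)
    have key := GGX_rel1 D ((V ∪ S').erase i.1) hT ha hS2 hST2 i.1 (Finset.notMem_erase _ _)
      h12 h1 h3 hs
    rw [Finset.insert_erase hmem] at key
    exact key
  · have h4 : f = g := by
      funext j
      by_cases hj : j = i
      · rw [hj, hfi, hg]
      · exact hfg j hj
    rw [h4]
    rfl
  · have h1 : uK i.1 (grZ E P y f) = -1 := l2 hfi
    have key := GGX_rel D ((V ∪ S').erase i.1) hT ha ha2 hS2 hST2 i.1 (Finset.notMem_erase _ _)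
      h12 h1 h3 hs
    rw [Finset.insert_erase hmem] at key
    exact key
  · exact absurd hfi hf

open Classical in
private theorem gr_all {T1 : Finset ℕ} {S' V : Finset (HeightOneSpectrum (𝓞 K))}
    (hS' : Nic T1 S') (hST' : ∀ v, ¬ Away K T v → v ∈ S')
    (hT : ∀ p : ℕ, p.Prime → p < 101 → p ∈ T)
    (ha : ∀ q : ℕ, |a q| ≤ 2 * Real.sqrt q) (ha2 : SqRel K T a) (hd : ∀ v ∈ V, v ∉ S')
    {E P : {v // v ∈ V} → Kˣ} (hE : IsEP S' V E P) {y : Kˣ} (hy : ∀ v ∈ V, LSq v y)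
    (k : {v // v ∈ V} → LC) (hk : ∀ i, k i ≠ (true, true)) {s : ℂ} (hs : s.re < 1 / 2)
    (A : Finset {v // v ∈ V}) :
    GGX (V ∪ S') D a (grZ E P y (fun i => if i ∈ A then k i else (false, true))) s *
        ∏ i ∈ A, gd (nrm i.1) (a (nrm i.1)) (k i) s =
      GGX (V ∪ S') D a (grZ E P y (fun _ => (false, true))) s *
        ∏ i ∈ A, gn (nrm i.1) (a (nrm i.1)) (k i) s := by
  induction A using Finset.induction_on with
  | empty =>
    rw [Finset.prod_empty, Finset.prod_empty]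
    have h1 : (fun i : {v // v ∈ V} => if i ∈ (∅ : Finset {v // v ∈ V}) then k i else
        ((false, true) : LC)) = fun _ => (false, true) := by
      funext i
      simp
    rw [h1]
  | insert i A hi ih =>
    have h1 := gr_step D hS' hST' hT ha ha2 hd hE hy
      (fun j => if j ∈ insert i A then k j else (false, true))
      (fun j => if j ∈ A then k j else (false, true)) i (by simpa using hk i) (by simp [hi]) (by
        intro j hj
        simp [hj]) hs
    have e1 : (if i ∈ insert i A then k i else ((false, true) : LC)) = k i :=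
      if_pos (Finset.mem_insert_self i A)
    simp only [e1] at h1
    rw [Finset.prod_insert hi, Finset.prod_insert hi, ← mul_assoc, h1, mul_assoc,
      mul_comm (gn (nrm i.1) (a (nrm i.1)) (k i) s), ← mul_assoc, ih, mul_assoc,
      mul_comm (∏ i ∈ A, gn (nrm i.1) (a (nrm i.1)) (k i) s)]

open Classical in
theorem GG_relT {T1 : Finset ℕ} {S' V : Finset (HeightOneSpectrum (𝓞 K))} (hS' : Nic T1 S')
    (hST' : ∀ v, ¬ Away K T v → v ∈ S') (hT : ∀ p : ℕ, p.Prime → p < 101 → p ∈ T)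
    (ha : ∀ q : ℕ, |a q| ≤ 2 * Real.sqrt q) (ha2 : SqRel K T a) (hd : ∀ v ∈ V, v ∉ S')
    {E P : {v // v ∈ V} → Kˣ} (hE : IsEP S' V E P) {h : GS (V ∪ S')} (hh : h ∈ HV (V ∪ S') V)
    (k : {v // v ∈ V} → LC) (hk : ∀ i, k i ≠ (true, true)) {s : ℂ} (hs : s.re < 1 / 2) :
    (sys (V ∪ S') D a).GG (h * cl (fun i => (QuotientGroup.mk (E i) : GS (V ∪ S')))
        (fun i => (QuotientGroup.mk (P i) : GS (V ∪ S'))) k) s *
        (∏ i : {v // v ∈ V}, gd (nrm i.1) (a (nrm i.1)) (k i) s) =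
      (sys (V ∪ S') D a).GG (h * cl (fun i => (QuotientGroup.mk (E i) : GS (V ∪ S')))
        (fun i => (QuotientGroup.mk (P i) : GS (V ∪ S'))) fun _ => (false, true)) s *
        (∏ i : {v // v ∈ V}, gn (nrm i.1) (a (nrm i.1)) (k i) s) := by
  obtain ⟨S0, hO, hG, hsub⟩ := hS'.ex
  have h2 : ∀ v : HeightOneSpectrum (𝓞 K), (2 : 𝓞 K) ∈ v.asIdeal → v ∈ V ∪ S' := fun v hv =>
    Finset.mem_union_right _ (hsub (hG.1 v hv))
  have hST : ∀ v, ¬ Away K T v → v ∈ V ∪ S' := fun v hv => Finset.mem_union_right _ (hST' v hv)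
  have hGG : ∀ z : Kˣ, (sys (V ∪ S') D a).GG (QuotientGroup.mk z) =
      GGX (V ∪ S') D a z := fun z => GGX_congr D _ h2 hST (out_div _ z)
  obtain ⟨y, rfl⟩ := QuotientGroup.mk_surjective h
  have hy : ∀ v ∈ V, LSq v y := (mem_HV Finset.subset_union_left y).1 hh
  have hz : ∀ g : {v // v ∈ V} → LC,
      (QuotientGroup.mk y * cl (fun i => (QuotientGroup.mk (E i) : GS (V ∪ S')))
        (fun i => (QuotientGroup.mk (P i) : GS (V ∪ S'))) g : GS (V ∪ S')) =
      QuotientGroup.mk (grZ E P y g) := by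
    intro g
    rw [cl_mk]
    rfl
  have key := gr_all D hS' hST' hT ha ha2 hd hE hy k hk hs Finset.univ
  have hf : (fun i : {v // v ∈ V} => if i ∈ (Finset.univ : Finset {v // v ∈ V}) then k i else
      ((false, true) : LC)) = k := by
    funext i
    simp
  rw [hf] at key
  rw [hz k, hz (fun _ => (false, true)), hGG, hGG]
  exact key

end Pool.Agent.MX
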