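import Pool.Agent.MD.I.Good
import Pool.Agent.MD.I.Sep
import Pool.Agent.MX.I.IsL
import Pool.Agent.MX.I.Sys
import Pool.Agent.LD.I.GInvB

/-!
# MX/I-Inst: the instantiation (MD/I-Inst)
-/

namespace Pool.Agent.MX

open NumberField IsDedekindDomain Pool.Agent.HWR Pool.Agent.QD Pool.Agent.QD.In Pool.Agent.LD
  Pool.Agent.MD

theorem instT (K : Type) [Field K] [NumberField K] (T : Finset ℕ) (hTp : ∀ p ∈ T, p.Prime)
    (hT : ∀ p : ℕ, p.Prime → p < 101 → p ∈ T) (D : LocData T) (a : ℕ → ℝ)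
    (ha : ∀ q : ℕ, |a q| ≤ 2 * Real.sqrt q) (ha2 : SqRel K T a)
    (V : Finset (HeightOneSpectrum (𝓞 K))) (hV : ∀ v ∈ V, Away K T v) (τ : HeightOneSpectrum (𝓞 K) → Ty)
    (hne : ∃ v ∈ V, τ v = Ty.s) (H : HWT D a V τ) :
    ∃ (S : SysD) (Hs : Subgroup S.G) (Kn : Set S.G) (M0 : S.G → ℂ → ℂ)
      (e p : {v // v ∈ V} → S.G) (F : Finset (HeightOneSpectrum (𝓞 K))),
      IsSys0 S ∧ IsKn S Kn ∧ IsLocT S Hs Kn M0 e p (fun i : {v // v ∈ V} => nrm i.1)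
        (fun i : {v // v ∈ V} => a (nrm i.1)) (fun i : {v // v ∈ V} => τ i.1) ∧ (∀ v ∈ F, Away K T v) ∧
      ∀ s : ℂ, 3 / 2 < s.re → LT K a T s = S.Ls s * ∏ v ∈ F, efac a (nrm v) s := by
  classical
  have h2T : 2 ∈ T := hT 2 Nat.prime_two (by norm_num)
  obtain ⟨T1, S1, hTT, hT1p, hO, hG, hd1⟩ := exists_goodV K T hTp h2T V hV
  have hS1 : Nic T1 S1 := ⟨hT1p, hTT h2T, S1, hO, hG, subset_rfl⟩
  obtain ⟨U, hU, hsep⟩ := exists_sep hS1 hd1 (101 * ∏ i : {v // v ∈ V}, nrm i.1)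
  obtain ⟨S', hSe⟩ : ∃ S', U ∪ S1 = S' := ⟨_, rfl⟩
  have hS' : Nic T1 S' := by
    rw [← hSe]
    exact ⟨hT1p, hTT h2T, S1, hO, hG, Finset.subset_union_right⟩
  have hS : Nic T1 (V ∪ S') := by
    rw [← hSe]
    exact ⟨hT1p, hTT h2T, S1, hO, hG,
      Finset.subset_union_right.trans Finset.subset_union_right⟩
  have hd : ∀ v ∈ V, v ∉ S' := by
    intro v hv h
    rw [← hSe, Finset.mem_union] at h
    rcases h with h | h
    · exact hU v hv h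
    · exact hd1 v hv h
  have hsep' : ∀ (x : Kˣ) (b : Io (V ∪ S') →₀ ℕ), x ∈ Pool.Agent.QD.HSub S' →
      (∀ v : Io (V ∪ S'), ordK v.1 x = (b v : ℤ)) →
      (b.prod fun v k => nrm v.1 ^ k) < 101 * ∏ i : {v // v ∈ V}, nrm i.1 → IsSquare x := by
    subst hSe
    exact hsep
  have hST' : ∀ v, ¬ Away K T v → v ∈ S' := by
    intro v hv
    rw [← hSe, Finset.mem_union]
    exact Or.inr ((hO v).2 fun h => hv fun q hq => h q (hTT hq))
  have hST : ∀ v, ¬ Away K T v → v ∈ V ∪ S' := fun v hv =>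
    Finset.mem_union_right _ (hST' v hv)
  obtain ⟨E, P, hE⟩ := exists_EP hS' hd
  refine ⟨sys (V ∪ S') D a, HV (V ∪ S') V, KT (V ∪ S') V τ, M0V S' V,
    fun i => QuotientGroup.mk (E i), fun i => QuotientGroup.mk (P i),
    (V ∪ S').filter (fun v => Away K T v), isSys0 D hS hST hT ha ha2,
    isKnT D hS hST hT ha ha2 Finset.subset_union_left hne H
      (fun x => GGX_inv D (V ∪ S') hT ha x),
    isLocT D τ hS' hST' hT ha ha2 hd hE hsep', ?_, ?_⟩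
  · intro v hv
    exact (Finset.mem_filter.1 hv).2
  · intro s hs
    rw [LT_split (V ∪ S') hST hT ha hs]
    rfl

end Pool.Agent.MX
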