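import Pool.Agent.MX.A.Defs
import Pool.Agent.MD.I.Defs
import Pool.Agent.QD.In.V0a

/-!
# MX/I, instantiation: definitions
-/

namespace Pool.Agent.MX

open NumberField IsDedekindDomain Pool.Agent.HWR Pool.Agent.QD Pool.Agent.QD.In Pool.Agent.LD
  Pool.Agent.MD

/-- the forbidden value of the symbol `uK v x` (`1` split, `0` ramified, `-1` inert) -/
def fb : Ty → ℤ
  | .s => 1
  | .r => 0
  | .i => -1

variable {K : Type} [Field K] [NumberField K]

/-- the allowed classes of `G_S` -/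
def KT (S V : Finset (HeightOneSpectrum (𝓞 K))) (τ : HeightOneSpectrum (𝓞 K) → Ty) :
    Set (GS S) :=
  {c | ∀ v ∈ V, uK v (Quotient.out c) ≠ fb (τ v)}

theorem mem_KT {S V : Finset (HeightOneSpectrum (𝓞 K))} {τ : HeightOneSpectrum (𝓞 K) → Ty}
    (hV : V ⊆ S) (x : Kˣ) :
    (QuotientGroup.mk x : GS S) ∈ KT S V τ ↔ ∀ v ∈ V, uK v x ≠ fb (τ v) := by
  have h1 := out_div S x
  refine forall₂_congr fun v hv => ?_
  rw [(uK_congr' v (h1.1 v (hV hv))).1]

/-- Hasse-Weil for all quadratic extensions `K(√x)` in which no place `v` of `V` has the forbidden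
type of decomposition -/
def HWT {T : Finset ℕ} (D : LocData T) (a : ℕ → ℝ) (V : Finset (HeightOneSpectrum (𝓞 K)))
    (τ : HeightOneSpectrum (𝓞 K) → Ty) : Prop :=
  ∀ x : Kˣ, (∀ v ∈ V, uK v x ≠ fb (τ v)) → ∀ (L : Type) [Field L] [NumberField L] [Algebra K L]
    (θ : L), Module.finrank K L = 2 → θ ^ 2 = algebraMap K L (x : K) → D.HW a L

end Pool.Agent.MX
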