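import Pool.Agent.MX.I.Defs
import Pool.Agent.QD.In.GGX

/-!
# MX/I-GG1: the relation between the factors `GGX` of a locally trivial and of a ramified class
-/

namespace Pool.Agent.MX

open NumberField IsDedekindDomain Pool.Agent.HWR Pool.Agent.QD Pool.Agent.QD.In Pool.Agent.LD
  Pool.Agent.MD

private theorem q_one_sub {q : ℕ} (hq : q ≠ 0) (s : ℂ) :
    (q : ℂ) ^ (1 - s) = q * (q : ℂ) ^ (-s) := by
  have h0 : (q : ℂ) ≠ 0 := by exact_mod_cast hq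
  rw [sub_eq_add_neg, Complex.cpow_add _ _ h0, Complex.cpow_one]

private theorem q_one_sub2 {q : ℕ} (hq : q ≠ 0) (s : ℂ) :
    (q : ℂ) ^ (1 - 2 * s) = q * ((q : ℂ) ^ (-s)) ^ 2 := by
  have h0 : (q : ℂ) ≠ 0 := by exact_mod_cast hq
  have h1 : (1 : ℂ) - 2 * s = 1 + (-s + -s) := by ring
  rw [h1, Complex.cpow_add _ _ h0, Complex.cpow_one, Complex.cpow_add _ _ h0, pow_two]

private theorem efi_lin {a : ℕ → ℝ} {q : ℕ} (hq : q ≠ 0) (s : ℂ) : efi a q s =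
      1 - (a q : ℂ) * (q : ℂ) ^ (-s) + q * ((q : ℂ) ^ (-s)) ^ 2 := by
  unfold efi
  rw [q_one_sub2 hq]

/-- the local identity -/
theorem loc_id1 {a : ℕ → ℝ} (ha : ∀ q : ℕ, |a q| ≤ 2 * Real.sqrt q) {q : ℕ} (hq : 101 ≤ q)
    {s : ℂ} (hs : s.re < 1 / 2) :
    FF a q (1 : ℤ) (2 - s) * (FF a q (1 : ℤ) s)⁻¹ * ka q (-(a q)) s =
      (q : ℂ) ^ (2 * (1 - s)) * (FF a q (0 : ℤ) (2 - s) * (FF a q (0 : ℤ) s)⁻¹) *
        kb q (-(a q)) s := by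
  have hq0 : q ≠ 0 := by omega
  have h0 : (q : ℂ) ≠ 0 := by exact_mod_cast hq0
  have hre : 1 ≤ (2 - s).re := by
    rw [Complex.sub_re]
    have : (2 : ℂ).re = 2 := rfl
    rw [this]
    linarith
  have e1 : ((1 : ℤ) : ℂ) = 1 := by norm_num
  have e0 : ((0 : ℤ) : ℂ) = 0 := by norm_num
  have hne : FF a q 0 (2 - s) ≠ 0 := ff_ne ha hq 0 hre
  have hm : ∀ z : ℂ, (FF a q 1 z)⁻¹ = efi a q z ^ 2 := by
    intro z
    rw [ffi_eq, if_pos rfl]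
  have hz : ∀ z : ℂ, (FF a q 0 z)⁻¹ = efi a q z := by
    intro z
    rw [ffi_eq, if_neg (by norm_num), if_neg (by norm_num)]
  have hm' : FF a q 1 (2 - s) = (efi a q (2 - s) ^ 2)⁻¹ := by rw [← hm, inv_inv]
  have hz' : FF a q 0 (2 - s) = (efi a q (2 - s))⁻¹ := by rw [← hz, inv_inv]
  have hA : efi a q (2 - s) ≠ 0 := by
    rw [← hz]
    exact inv_ne_zero hne
  rw [e1, e0, hm, hz, hm', hz']
  rw [efi_lin hq0] at hA
  rw [efi_lin hq0, efi_lin hq0]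
  unfold ka kb
  set X : ℂ := (q : ℂ) ^ (-s) with hX
  set Y : ℂ := (q : ℂ) ^ (-(2 - s)) with hY
  have hX0 : X ≠ 0 := by
    rw [hX, Complex.cpow_ne_zero_iff]
    exact Or.inl h0
  have hXY : (q : ℂ) ^ 2 * X * Y = 1 := by
    have h3 : (q : ℂ) ^ (-(2 - s)) = ((q : ℂ) ^ 2)⁻¹ * ((q : ℂ) ^ (-s))⁻¹ := by
      have h4 : -(2 - s) = -(2 : ℂ) + -(-s) := by ring
      rw [h4, Complex.cpow_add _ _ h0, Complex.cpow_neg (q : ℂ) (-s), Complex.cpow_neg (q : ℂ) 2]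
      congr 2
      exact Complex.cpow_ofNat (q : ℂ) 2
    rw [hY, h3, ← hX]
    field_simp
  have h5 : (q : ℂ) ^ (1 - s) = q * X := q_one_sub hq0 s
  have h6 : (q : ℂ) ^ (1 - 2 * s) = q * X ^ 2 := q_one_sub2 hq0 s
  have h7 : (q : ℂ) ^ (3 - 2 * s) = q ^ 3 * X ^ 2 := by
    have h8 : (3 : ℂ) - 2 * s = 2 + (1 - 2 * s) := by ring
    have h9 : (q : ℂ) ^ (2 : ℂ) = (q : ℂ) ^ 2 := Complex.cpow_ofNat (q : ℂ) 2
    rw [h8, Complex.cpow_add _ _ h0, h6, h9]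
    ring
  have h8 : (q : ℂ) ^ (2 * (1 - s)) = q ^ 2 * X ^ 2 := by
    have h9 : (2 : ℂ) * (1 - s) = (1 - s) + (1 - s) := by ring
    rw [h9, Complex.cpow_add _ _ h0, h5]
    ring
  rw [h5, h6, h7, h8]
  push_cast
  have key : 1 + -(a q : ℂ) * (q * X) + q ^ 3 * X ^ 2
      = q ^ 3 * X ^ 2 * (1 - (a q : ℂ) * Y + q * Y ^ 2) := by
    linear_combination ((q : ℂ) * X * (a q : ℂ) - ((q : ℂ) ^ 2 * X * Y + 1)) * hXY
  rw [key]
  generalize (1 - (a q : ℂ) * Y + q * Y ^ 2) = B at hA ⊢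
  field_simp
  ring

variable {K : Type} [Field K] [NumberField K] {T : Finset ℕ} (D : LocData T)
  (S : Finset (HeightOneSpectrum (𝓞 K))) {a : ℕ → ℝ}

/-- the relation between the two factors, split and ramified class -/
theorem GGX_rel1 [DecidableEq (HeightOneSpectrum (𝓞 K))]
    (hT : ∀ p : ℕ, p.Prime → p < 101 → p ∈ T) (ha : ∀ q : ℕ, |a q| ≤ 2 * Real.sqrt q)
    (h2 : ∀ v : HeightOneSpectrum (𝓞 K), (2 : 𝓞 K) ∈ v.asIdeal → v ∈ S)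
    (hST : ∀ v, ¬ Away K T v → v ∈ S) (v : HeightOneSpectrum (𝓞 K)) (hv : v ∉ S) {z1 z2 : Kˣ}
    (h12 : z1 / z2 ∈ Pool.Agent.QD.HSub S) (h1 : uK v z1 = 1) (h3 : Odd (ordK v z2)) {s : ℂ}
    (hs : s.re < 1 / 2) :
    GGX (insert v S) D a z1 s * ka (nrm v) (-(a (nrm v))) s =
      GGX (insert v S) D a z2 s * kb (nrm v) (-(a (nrm v))) s := by
  have hvT : Away K T v := by
    by_contra h
    exact hv (hST v h)
  have hv2 : (2 : 𝓞 K) ∉ v.asIdeal := fun h => hv (h2 v h)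
  have hodd : ¬ Odd (ordK v z1) := by
    intro h
    unfold uK at h1
    rw [if_pos h] at h1
    norm_num at h1
  have hu2 : uK v z2 = 0 := by
    unfold uK
    rw [if_pos h3]
  have key := loc_id1 ha (nrm_ge K T hT v hvT) hs
  rw [GGX_insert D S v hv hv2 hvT, GGX_insert D S v hv hv2 hvT, if_neg hodd, if_pos h3, h1, hu2,
    GGX_congr D S h2 hST h12, one_mul, mul_assoc (GGX S D a z2 s), mul_assoc (GGX S D a z2 s),
    key]

end Pool.Agent.MX
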